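import Pool.Graph.R_pool_sql_team_seeded_620a6dc7.Results.MP_85199e_an.EverywhereDivergent

set_option autoImplicit false

open Polynomial Filter Topology Finset

namespace Pool.Agent.KS6_89.AB

/-- inverse Vandermonde at the nodes `1/2, 1/4, 1/8, 1/16` -/
lemma vander (D A B E M : ℝ)
    (h1 : |D + (1 / 2) * A + (1 / 2) ^ 2 * B + (1 / 2) ^ 3 * E| ≤ M)
    (h2 : |D + (1 / 4) * A + (1 / 4) ^ 2 * B + (1 / 4) ^ 3 * E| ≤ M)
    (h3 : |D + (1 / 8) * A + (1 / 8) ^ 2 * B + (1 / 8) ^ 3 * E| ≤ M)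
    (h4 : |D + (1 / 16) * A + (1 / 16) ^ 2 * B + (1 / 16) ^ 3 * E| ≤ M) :
    |A| ≤ 732 * M ∧ |B| ≤ 732 * M ∧ |E| ≤ 732 * M := by
  have hM : 0 ≤ M := (abs_nonneg _).trans h1
  rw [abs_le] at h1 h2 h3 h4
  obtain ⟨a1, b1⟩ := h1
  obtain ⟨a2, b2⟩ := h2
  obtain ⟨a3, b3⟩ := h3
  obtain ⟨a4, b4⟩ := h4
  norm_num at a1 b1 a2 b2 a3 b3 a4 b4
  refine ⟨?_, ?_, ?_⟩ <;> rw [abs_le] <;> constructor <;> linarith

lemma unif (G : ℂ[X]) (ε : ℝ) (hε : 0 < ε) : ∃ δ : ℝ, 0 < δ ∧ ∀ r : ℝ, 0 ≤ r → r ≤ 1 →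
    1 - r < δ → ∀ w : ℂ, ‖w‖ = 1 → ‖G.eval (r * w) - G.eval w‖ ≤ ε := by
  have hc : UniformContinuousOn (fun z : ℂ => G.eval z) (Metric.closedBall 0 1) :=
    (isCompact_closedBall (0:ℂ) 1).uniformContinuousOn_of_continuous G.continuous.continuousOn
  obtain ⟨δ, hδ, h⟩ := Metric.uniformContinuousOn_iff.1 hc ε hε
  refine ⟨δ, hδ, fun r h0 h1 h2 w hw => ?_⟩
  have h3 := h (r * w) (by
    rw [mem_closedBall_zero_iff, norm_mul, hw, mul_one, Complex.norm_real, Real.norm_eq_abs,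
      abs_of_nonneg h0]; exact h1) w (by rw [mem_closedBall_zero_iff, hw]) (by
    rw [dist_eq_norm, show (r : ℂ) * w - w = ((r - 1 : ℝ) : ℂ) * w by push_cast; ring, norm_mul,
      hw, mul_one, Complex.norm_real, Real.norm_eq_abs, abs_sub_comm,
      abs_of_nonneg (by linarith)]; exact h2)
  rw [dist_eq_norm] at h3
  exact h3.le

lemma radius (ρ : ℝ) (h0 : 0 < ρ) (h1 : ρ < 1) (δ : ℝ) (hδ : 0 < δ) :
    ∃ L0 : ℕ, ∀ L : ℕ, L0 ≤ L → 1 ≤ L → ∃ r : ℝ, 0 < r ∧ r < 1 ∧ 1 - r < δ ∧ r ^ L = ρ := by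
  have ht : Tendsto (fun L : ℕ => ρ ^ ((L : ℝ)⁻¹)) atTop (𝓝 1) := by
    have e : Tendsto (fun L : ℕ => ((L : ℝ)⁻¹)) atTop (𝓝 0) := tendsto_inv_atTop_nhds_zero_nat
    have := (Real.continuousAt_const_rpow (a := ρ) (b := 0) h0.ne').tendsto.comp e
    rw [Real.rpow_zero] at this
    exact this
  obtain ⟨L0, hL0⟩ := (ht.eventually (lt_mem_nhds (show 1 - δ < 1 by linarith))).exists_forall_of_atTop
  refine ⟨L0, fun L hL hL1 => ⟨ρ ^ ((L : ℝ)⁻¹), Real.rpow_pos_of_pos h0 _, ?_, ?_, ?_⟩⟩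
  · apply Real.rpow_lt_one h0.le h1
    have : (0 : ℝ) < L := by exact_mod_cast hL1
    positivity
  · have := hL0 L hL
    linarith
  · exact Real.rpow_inv_natCast_pow h0.le (by omega)

/-- the building block -/
noncomputable def blk (γ : ℝ) (P : ℂ[X]) (L : ℕ) : ℂ[X] :=
  C (γ : ℂ) * (X ^ L * P + X ^ (2 * L) * P - C Complex.I * (X ^ (3 * L) * P))

lemma blk_eval (γ : ℝ) (P : ℂ[X]) (L : ℕ) (z : ℂ) :
    (blk γ P L).eval z = γ * ((z ^ L + (z ^ L) ^ 2 - Complex.I * (z ^ L) ^ 3) * P.eval z) := by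
  unfold blk
  simp only [eval_mul, eval_C, eval_sub, eval_add, eval_pow, eval_X]
  rw [mul_comm 2 L, mul_comm 3 L, pow_mul, pow_mul]
  ring

lemma blk_coeff (γ : ℝ) (P : ℂ[X]) (L n : ℕ) :
    (blk γ P L).coeff n = γ * ((if L ≤ n then P.coeff (n - L) else 0)
      + (if 2 * L ≤ n then P.coeff (n - 2 * L) else 0)
      - Complex.I * (if 3 * L ≤ n then P.coeff (n - 3 * L) else 0)) := by
  unfold blk
  rw [coeff_C_mul, coeff_sub, coeff_add, coeff_C_mul, coeff_X_pow_mul', coeff_X_pow_mul',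
    coeff_X_pow_mul']

/-- the main step -/
lemma big (F P : ℂ[X]) (γ : ℝ) (hγ : 0 < γ) (δ : ℝ) (hδ : 0 < δ) :
    ∃ L0 : ℕ, ∀ L : ℕ, L0 ≤ L → 1 ≤ L → ∃ R : ℝ, 0 ≤ R ∧ R < 1 ∧ ∀ w0 l : ℂ, ‖w0‖ = 1 → ‖l‖ = 1 →
      ∃ r : ℝ, 0 < r ∧ r ≤ R ∧ 1 - r < δ ∧
        γ * ‖P.eval w0‖ / 2400 - 3 ≤ |(l * (F + blk γ P L).eval (r * w0)).re| := by
  obtain ⟨δF, hδF, hF⟩ := unif F 1 one_pos
  obtain ⟨δP, hδP, hP⟩ := unif P (1 / (3 * γ)) (by positivity)
  set δ' := min δ (min δF δP) with hδ'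
  have hδ'0 : 0 < δ' := by rw [hδ']; positivity
  have hd1 : δ' ≤ δ := min_le_left _ _
  have hd2 : δ' ≤ δF := (min_le_right _ _).trans (min_le_left _ _)
  have hd3 : δ' ≤ δP := (min_le_right _ _).trans (min_le_right _ _)
  obtain ⟨L1, hL1⟩ := radius (1 / 2) (by norm_num) (by norm_num) δ' hδ'0
  obtain ⟨L2, hL2⟩ := radius (1 / 4) (by norm_num) (by norm_num) δ' hδ'0
  obtain ⟨L3, hL3⟩ := radius (1 / 8) (by norm_num) (by norm_num) δ' hδ'0
  obtain ⟨L4, hL4⟩ := radius (1 / 16) (by norm_num) (by norm_num) δ' hδ'0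
  refine ⟨max (max L1 L2) (max L3 L4), fun L hL h1L => ?_⟩
  have i1 : L1 ≤ L := ((le_max_left _ _).trans (le_max_left _ _)).trans hL
  have i2 : L2 ≤ L := ((le_max_right _ _).trans (le_max_left _ _)).trans hL
  have i3 : L3 ≤ L := ((le_max_left _ _).trans (le_max_right _ _)).trans hL
  have i4 : L4 ≤ L := ((le_max_right _ _).trans (le_max_right _ _)).trans hL
  obtain ⟨r1, p1, q1, s1, t1⟩ := hL1 L i1 h1L
  obtain ⟨r2, p2, q2, s2, t2⟩ := hL2 L i2 h1L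
  obtain ⟨r3, p3, q3, s3, t3⟩ := hL3 L i3 h1L
  obtain ⟨r4, p4, q4, s4, t4⟩ := hL4 L i4 h1L
  refine ⟨max (max r1 r2) (max r3 r4), ?_, ?_, ?_⟩
  · exact p1.le.trans ((le_max_left _ _).trans (le_max_left _ _))
  · exact max_lt (max_lt q1 q2) (max_lt q3 q4)
  intro w0 l hw0 hl
  set w := w0 ^ L with hw
  have hwn : ‖w‖ = 1 := by rw [hw, norm_pow, hw0, one_pow]
  set u : ℂ := l * γ * w * P.eval w0 with hu
  set D : ℝ := (l * F.eval w0).re with hD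
  set A : ℝ := u.re with hA
  set B : ℝ := (w * u).re with hB
  set E : ℝ := (w ^ 2 * u).im with hE
  -- value of the function at the radius `r` with `r ^ L = ρ`
  have key1 : ∀ r ρ : ℝ, 0 < r → r < 1 → 1 - r < δ' → r ^ L = ρ → ρ ≤ 1 →
      |(l * (F + blk γ P L).eval (r * w0)).re - (D + ρ * A + ρ ^ 2 * B + ρ ^ 3 * E)| ≤ 2 := by
    intro r ρ hr0 hr1 hr2 hr3 hρ1
    have hρ0 : 0 < ρ := by rw [← hr3]; positivity
    have e1 := hF r hr0.le hr1.le (hr2.trans_le hd2) w0 hw0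
    have e2 := hP r hr0.le hr1.le (hr2.trans_le hd3) w0 hw0
    have e3 : (((r : ℂ) * w0) ^ L) = ρ * w := by
      rw [mul_pow, ← hr3]; push_cast; rfl
    have e4 : (l * (F + blk γ P L).eval (r * w0)).re - (D + ρ * A + ρ ^ 2 * B + ρ ^ 3 * E)
        = (l * (F.eval (r * w0) - F.eval w0)
          + l * (γ * ((ρ * w + (ρ * w) ^ 2 - Complex.I * (ρ * w) ^ 3)
            * (P.eval (r * w0) - P.eval w0)))).re := by
      have e5 : E = (-Complex.I * (w ^ 2 * u)).re := by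
        rw [hE]; simp
      rw [hD, hA, hB, e5, eval_add, blk_eval, e3]
      have c1 : ρ * u.re = ((ρ : ℂ) * u).re := by rw [Complex.re_ofReal_mul]
      have c2 : ρ ^ 2 * (w * u).re = (((ρ ^ 2 : ℝ) : ℂ) * (w * u)).re := by
        rw [Complex.re_ofReal_mul]
      have c3 : ρ ^ 3 * (-Complex.I * (w ^ 2 * u)).re
          = (((ρ ^ 3 : ℝ) : ℂ) * (-Complex.I * (w ^ 2 * u))).re := by
        rw [Complex.re_ofReal_mul]
      rw [c1, c2, c3, ← Complex.add_re, ← Complex.add_re, ← Complex.add_re, ← Complex.sub_re]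
      congr 1
      rw [hu]
      push_cast
      ring
    rw [e4]
    refine (Complex.abs_re_le_norm _).trans ((norm_add_le _ _).trans ?_)
    have e6 : ‖l * (F.eval (r * w0) - F.eval w0)‖ ≤ 1 := by
      rw [norm_mul, hl, one_mul]; exact e1
    have hρw : ‖(ρ : ℂ) * w‖ = ρ := by
      rw [norm_mul, hwn, mul_one, Complex.norm_real, Real.norm_eq_abs, abs_of_pos hρ0]
    have e7 : ‖(ρ * w + (ρ * w) ^ 2 - Complex.I * (ρ * w) ^ 3 : ℂ)‖ ≤ 3 := by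
      refine (norm_sub_le _ _).trans ?_
      have c1 := norm_add_le ((ρ : ℂ) * w) ((ρ * w) ^ 2)
      rw [norm_pow, hρw] at c1
      rw [norm_mul, Complex.norm_I, one_mul, norm_pow, hρw]
      have c2 : ρ ^ 2 ≤ 1 := pow_le_one₀ hρ0.le hρ1
      have c3 : ρ ^ 3 ≤ 1 := pow_le_one₀ hρ0.le hρ1
      linarith
    have e8 : ‖l * (γ * ((ρ * w + (ρ * w) ^ 2 - Complex.I * (ρ * w) ^ 3)
            * (P.eval (r * w0) - P.eval w0)))‖ ≤ 1 := by
      rw [norm_mul, hl, one_mul, norm_mul, norm_mul, Complex.norm_real, Real.norm_eq_abs,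
        abs_of_pos hγ]
      calc γ * (‖(ρ * w + (ρ * w) ^ 2 - Complex.I * (ρ * w) ^ 3 : ℂ)‖
            * ‖P.eval (r * w0) - P.eval w0‖) ≤ γ * (3 * (1 / (3 * γ))) := by
            apply mul_le_mul_of_nonneg_left _ hγ.le
            exact mul_le_mul e7 e2 (norm_nonneg _) (by norm_num)
        _ = 1 := by field_simp
    linarith
  by_contra hcon
  push Not at hcon
  set M : ℝ := γ * ‖P.eval w0‖ / 2400 - 3 with hM
  have k1 := key1 r1 (1 / 2) p1 q1 s1 t1 (by norm_num)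
  have k2 := key1 r2 (1 / 4) p2 q2 s2 t2 (by norm_num)
  have k3 := key1 r3 (1 / 8) p3 q3 s3 t3 (by norm_num)
  have k4 := key1 r4 (1 / 16) p4 q4 s4 t4 (by norm_num)
  have m1 := hcon r1 p1 ((le_max_left _ _).trans (le_max_left _ _)) (s1.trans_le hd1)
  have m2 := hcon r2 p2 ((le_max_right _ _).trans (le_max_left _ _)) (s2.trans_le hd1)
  have m3 := hcon r3 p3 ((le_max_left _ _).trans (le_max_right _ _)) (s3.trans_le hd1)
  have m4 := hcon r4 p4 ((le_max_right _ _).trans (le_max_right _ _)) (s4.trans_le hd1)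
  have comb : ∀ a b : ℝ, |a - b| ≤ 2 → |a| < M → |b| ≤ M + 2 := by
    intro a b h1 h2
    rw [abs_le] at h1 ⊢
    rw [abs_lt] at h2
    constructor <;> linarith [h1.1, h1.2, h2.1, h2.2]
  have v := vander D A B E (M + 2) (comb _ _ k1 m1) (comb _ _ k2 m2) (comb _ _ k3 m3)
    (comb _ _ k4 m4)
  have hk := Pool.Agent.Results.MP_85199e_an.EverywhereDivergent.key u w hwn (732 * (M + 2))
    v.1 v.2.1 v.2.2
  have hun : ‖u‖ = γ * ‖P.eval w0‖ := by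
    rw [hu, norm_mul, norm_mul, norm_mul, hl, hwn, Complex.norm_real, Real.norm_eq_abs,
      abs_of_pos hγ]
    ring
  rw [hun] at hk
  set t := γ * ‖P.eval w0‖ with ht
  have hMpos : 0 < M := (abs_nonneg _).trans_lt m1
  have h5 : M + 2 ≤ t / 2400 := by rw [hM]; linarith
  have h6 : (732 * (M + 2)) ^ 2 ≤ (732 * (t / 2400)) ^ 2 := by
    apply pow_le_pow_left₀ (by positivity)
    linarith
  have h7 : 0 < t := by
    by_contra h; push Not at h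
    have : M ≤ -3 := by rw [hM]; linarith
    linarith
  have h8 : 0 < t ^ 2 := by positivity
  nlinarith

end Pool.Agent.KS6_89.AB
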