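import Pool.Agent.KS6_89.AB.B1

set_option autoImplicit false

open Polynomial Filter Topology Finset

namespace Pool.Agent.KS6_89.AB

/-- the data of one stage -/
structure Stage where
  P : ℂ[X]
  N : ℕ
  γ : ℝ
  hγ : 0 < γ
  hγ1 : 3 * γ ≤ 1
  hP : ∀ n, ‖P.coeff n‖ ≤ 1
  hN : ∀ n, N ≤ n → P.coeff n = 0

def Good (s : ℂ[X] × ℕ) : Prop := s.1.coeff 0 = 0 ∧ ∀ n, s.2 ≤ n → s.1.coeff n = 0

def Rel (S : Stage) (j : ℕ) (s t : ℂ[X] × ℕ) : Prop :=
  s.2 < t.2 ∧ (∀ n, n < s.2 → t.1.coeff n = s.1.coeff n) ∧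
  (∀ n, s.2 ≤ n → ‖t.1.coeff n‖ ≤ 3 * S.γ) ∧
  ((Finset.Ico s.2 t.2).filter (fun n => t.1.coeff n ≠ 0)).card ≤ 3 * S.N ∧
  ∃ R : ℝ, 0 ≤ R ∧ R < 1 ∧ R ^ t.2 / (1 - R) ≤ 1 ∧ ∀ w0 l : ℂ, ‖w0‖ = 1 → ‖l‖ = 1 →
      ∃ r : ℝ, 0 < r ∧ r ≤ R ∧ 1 - r < 1 / ((j : ℝ) + 1) ∧
        S.γ * ‖S.P.eval w0‖ / 2400 - 3 ≤ |(l * t.1.eval (r * w0)).re|

lemma step (S : Stage) (j : ℕ) (s : ℂ[X] × ℕ) (hs : Good s) :
    ∃ t : ℂ[X] × ℕ, Good t ∧ Rel S j s t := by
  obtain ⟨hs0, hs⟩ := hs
  obtain ⟨L0, hL0⟩ := big s.1 S.P S.γ S.hγ (1 / ((j : ℝ) + 1)) (by positivity)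
  set L := max L0 (max s.2 (max S.N 1)) with hL
  have hLa : L0 ≤ L := le_max_left _ _
  have hLb : s.2 ≤ L := (le_max_left _ _).trans (le_max_right _ _)
  have hLc : S.N ≤ L := ((le_max_left _ _).trans (le_max_right _ _)).trans (le_max_right _ _)
  have hLd : 1 ≤ L := ((le_max_right _ _).trans (le_max_right _ _)).trans (le_max_right _ _)
  obtain ⟨R, hR0, hR1, hR⟩ := hL0 L hLa hLd
  have ht : Tendsto (fun m : ℕ => R ^ m / (1 - R)) atTop (𝓝 0) := by
    have := (tendsto_pow_atTop_nhds_zero_of_lt_one hR0 hR1).div_const (1 - R)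
    simpa using this
  obtain ⟨m0, hm0⟩ := (ht.eventually (ge_mem_nhds (show (0:ℝ) < 1 by norm_num))).exists_forall_of_atTop
  set M' := max m0 (4 * L + 1) with hM'
  have hMa : m0 ≤ M' := le_max_left _ _
  have hMb : 4 * L + 1 ≤ M' := le_max_right _ _
  have hcoeff : ∀ n, (s.1 + blk S.γ S.P L).coeff n = s.1.coeff n + (blk S.γ S.P L).coeff n :=
    fun n => coeff_add _ _ n
  have hsmall : ∀ n, n < L → (blk S.γ S.P L).coeff n = 0 := by
    intro n hn
    rw [blk_coeff, if_neg (by omega), if_neg (by omega), if_neg (by omega)]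
    simp
  have hlarge : ∀ n, M' ≤ n → (blk S.γ S.P L).coeff n = 0 := by
    intro n hn
    rw [blk_coeff, if_pos (by omega), if_pos (by omega), if_pos (by omega),
      S.hN _ (by omega), S.hN _ (by omega), S.hN _ (by omega)]
    simp
  have hb : ∀ n, ‖(blk S.γ S.P L).coeff n‖ ≤ 3 * S.γ := by
    intro n
    rw [blk_coeff, norm_mul, Complex.norm_real, Real.norm_eq_abs, abs_of_pos S.hγ]
    have c1 : ∀ k : ℕ, ‖(if k ≤ n then S.P.coeff (n - k) else 0)‖ ≤ 1 := by
      intro k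
      split_ifs
      · exact S.hP _
      · simp
    have c2 := c1 L
    have c3 := c1 (2 * L)
    have c4 := c1 (3 * L)
    have c5 : ‖((if L ≤ n then S.P.coeff (n - L) else 0)
      + (if 2 * L ≤ n then S.P.coeff (n - 2 * L) else 0)
      - Complex.I * (if 3 * L ≤ n then S.P.coeff (n - 3 * L) else 0))‖ ≤ 3 := by
      refine (norm_sub_le _ _).trans ?_
      rw [norm_mul, Complex.norm_I, one_mul]
      have := norm_add_le (if L ≤ n then S.P.coeff (n - L) else 0)
        (if 2 * L ≤ n then S.P.coeff (n - 2 * L) else 0)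
      linarith
    have := S.hγ
    nlinarith
  refine ⟨(s.1 + blk S.γ S.P L, M'), ⟨?_, ?_⟩, ?_, ?_, ?_, ?_, ?_⟩
  · simp only
    rw [hcoeff, hs0, hsmall 0 (by omega), add_zero]
  · intro n hn
    simp only at hn ⊢
    rw [hcoeff, hs n (by omega), hlarge n hn, add_zero]
  · simp only; omega
  · intro n hn
    simp only
    rw [hcoeff, hsmall n (by omega), add_zero]
  · intro n hn
    simp only
    rw [hcoeff, hs n hn, zero_add]
    exact hb n
  · simp only
    have hsub : (Finset.Ico s.2 M').filter (fun n => (s.1 + blk S.γ S.P L).coeff n ≠ 0)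
        ⊆ (Finset.Ico L (L + S.N) ∪ Finset.Ico (2 * L) (2 * L + S.N))
          ∪ Finset.Ico (3 * L) (3 * L + S.N) := by
      intro n hn
      rw [Finset.mem_filter, Finset.mem_Ico] at hn
      obtain ⟨⟨h1, h2⟩, h3⟩ := hn
      rw [hcoeff, hs n h1, zero_add] at h3
      by_contra hcon
      apply h3
      simp only [Finset.mem_union, Finset.mem_Ico, not_or, not_and, not_lt] at hcon
      obtain ⟨⟨g1, g2⟩, g3⟩ := hcon
      rw [blk_coeff]
      have k1 : (if L ≤ n then S.P.coeff (n - L) else 0) = 0 := by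
        split_ifs with h
        · exact S.hN _ (by have := g1 h; omega)
        · rfl
      have k2 : (if 2 * L ≤ n then S.P.coeff (n - 2 * L) else 0) = 0 := by
        split_ifs with h
        · exact S.hN _ (by have := g2 h; omega)
        · rfl
      have k3 : (if 3 * L ≤ n then S.P.coeff (n - 3 * L) else 0) = 0 := by
        split_ifs with h
        · exact S.hN _ (by have := g3 h; omega)
        · rfl
      rw [k1, k2, k3]
      simp
    refine (Finset.card_le_card hsub).trans ((Finset.card_union_le _ _).trans ?_)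
    have := Finset.card_union_le (Finset.Ico L (L + S.N)) (Finset.Ico (2 * L) (2 * L + S.N))
    simp only [Nat.card_Ico, Nat.add_sub_cancel_left] at this ⊢
    omega
  · exact ⟨R, hR0, hR1, hm0 M' hMa, fun w0 l hw0 hl => hR w0 l hw0 hl⟩

theorem exists_seq (S : ℕ → Stage) : ∃ st : ℕ → ℂ[X] × ℕ, st 0 = (0, 0) ∧ (∀ j, Good (st j)) ∧
    ∀ j, Rel (S j) j (st j) (st (j + 1)) := by
  have hstep : ∀ (j : ℕ) (s : {s : ℂ[X] × ℕ // Good s}),
      ∃ t : {s : ℂ[X] × ℕ // Good s}, Rel (S j) j s.1 t.1 := by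
    intro j s
    obtain ⟨t, ht, hr⟩ := step (S j) j s.1 s.2
    exact ⟨⟨t, ht⟩, hr⟩
  choose F hF using hstep
  let sq : ℕ → {s : ℂ[X] × ℕ // Good s} := fun n =>
    Nat.rec ⟨(0, 0), by simp, fun n _ => by simp⟩ (fun j s => F j s) n
  exact ⟨fun j => (sq j).1, rfl, fun j => (sq j).2, fun j => hF j (sq j)⟩

/-- the output: a coefficient sequence -/
theorem exists_coeff (S : ℕ → Stage) : ∃ (c : ℕ → ℂ) (M : ℕ → ℕ), c 0 = 0 ∧ M 0 = 0 ∧
    (∀ j, M j < M (j + 1)) ∧
    (∀ j n, M j ≤ n → n < M (j + 1) → ‖c n‖ ≤ 3 * (S j).γ) ∧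
    (∀ j, ((Finset.Ico (M j) (M (j + 1))).filter (fun n => c n ≠ 0)).card ≤ 3 * (S j).N) ∧
    ∀ j : ℕ, ∃ R : ℝ, 0 ≤ R ∧ R < 1 ∧ ∀ w0 l : ℂ, ‖w0‖ = 1 → ‖l‖ = 1 →
      ∃ r : ℝ, 0 < r ∧ r ≤ R ∧ 1 - r < 1 / ((j : ℝ) + 1) ∧
        (S j).γ * ‖(S j).P.eval w0‖ / 2400 - 4 ≤ |(l * ∑' n, c n * (r * w0) ^ n).re| := by
  obtain ⟨st, h0, hgood, hrel⟩ := exists_seq S
  set M : ℕ → ℕ := fun j => (st j).2 with hM
  have hmono : ∀ j, M j < M (j + 1) := fun j => (hrel j).1
  have hsm : StrictMono M := strictMono_nat_of_lt_succ hmono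
  have hge : ∀ j, j ≤ M j := hsm.id_le
  have hstab : ∀ k j n, n < M j → (st (j + k)).1.coeff n = (st j).1.coeff n := by
    intro k
    induction k with
    | zero => intro j n _; rfl
    | succ k ih =>
      intro j n hn
      rw [← ih j n hn]
      exact (hrel (j + k)).2.1 n (hn.trans_le (hsm.monotone (by omega)))
  set c : ℕ → ℂ := fun n => (st (n + 1)).1.coeff n with hc
  have hcj : ∀ j n, n < M j → c n = (st j).1.coeff n := by
    intro j n hn
    rcases le_total (n + 1) j with h | h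
    · obtain ⟨k, rfl⟩ := Nat.exists_eq_add_of_le h
      rw [hc]
      exact (hstab k (n + 1) n (lt_of_lt_of_le (Nat.lt_succ_self n) (hge (n + 1)))).symm
    · obtain ⟨k, hk⟩ := Nat.exists_eq_add_of_le h
      rw [hc]
      simp only
      rw [hk]
      exact hstab k j n hn
  have hblock : ∀ j n, M j ≤ n → n < M (j + 1) → ‖c n‖ ≤ 3 * (S j).γ := by
    intro j n h1 h2
    rw [hcj (j + 1) n h2]
    exact (hrel j).2.2.1 n h1
  have hexj : ∀ n, ∃ j, M j ≤ n ∧ n < M (j + 1) := by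
    intro n
    induction n with
    | zero =>
      refine ⟨0, by rw [hM]; simp [h0], ?_⟩
      have := hmono 0
      omega
    | succ n ih =>
      obtain ⟨j, h1, h2⟩ := ih
      rcases Nat.lt_or_ge (n + 1) (M (j + 1)) with h | h
      · exact ⟨j, by omega, h⟩
      · refine ⟨j + 1, h, ?_⟩
        have := hmono (j + 1)
        omega
  have hone : ∀ n, ‖c n‖ ≤ 1 := by
    intro n
    obtain ⟨j, h1, h2⟩ := hexj n
    exact (hblock j n h1 h2).trans (S j).hγ1
  refine ⟨c, M, (hgood 1).1, by rw [hM]; simp [h0], hmono, hblock, ?_, ?_⟩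
  · intro j
    refine le_trans (Finset.card_le_card ?_) (hrel j).2.2.2.1
    intro n hn
    rw [Finset.mem_filter, Finset.mem_Ico] at hn ⊢
    refine ⟨hn.1, ?_⟩
    rw [← hcj (j + 1) n hn.1.2]
    exact hn.2
  · intro j
    obtain ⟨R, hR0, hR1, hR2, hR⟩ := (hrel j).2.2.2.2
    refine ⟨R, hR0, hR1, fun w0 l hw0 hl => ?_⟩
    obtain ⟨r, hr0, hrR, hr2, hr3⟩ := hR w0 l hw0 hl
    refine ⟨r, hr0, hrR, hr2, ?_⟩
    have hr1 : r < 1 := hrR.trans_lt hR1
    set z : ℂ := r * w0 with hz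
    have hzn : ‖z‖ = r := by
      rw [hz, norm_mul, hw0, mul_one, Complex.norm_real, Real.norm_eq_abs, abs_of_pos hr0]
    have hsum : Summable (fun n => c n * z ^ n) := by
      apply Summable.of_norm_bounded (g := fun n => r ^ n) (summable_geometric_of_lt_one hr0.le hr1)
      intro n
      rw [norm_mul, norm_pow, hzn]
      have := hone n
      have h5 : 0 ≤ r ^ n := by positivity
      nlinarith
    have hfin : (st (j + 1)).1.eval z = ∑ n ∈ range (M (j + 1)), c n * z ^ n := by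
      have hdeg : (st (j + 1)).1.natDegree < M (j + 1) := by
        by_contra hcon
        push Not at hcon
        have h1 : (st (j + 1)).1.leadingCoeff = 0 := (hgood (j + 1)).2 _ hcon
        rw [leadingCoeff_eq_zero] at h1
        rw [h1, natDegree_zero] at hcon
        have := hmono j
        omega
      rw [eval_eq_sum_range' hdeg]
      apply Finset.sum_congr rfl
      intro n hn
      rw [hcj (j + 1) n (Finset.mem_range.1 hn)]
    have htail : ‖∑' n, c n * z ^ n - (st (j + 1)).1.eval z‖ ≤ 1 := by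
      rw [hfin, ← hsum.sum_add_tsum_nat_add (M (j + 1)), add_sub_cancel_left]
      have hg : HasSum (fun n : ℕ => r ^ (M (j + 1)) * r ^ n) (r ^ (M (j + 1)) * (1 - r)⁻¹) :=
        (hasSum_geometric_of_lt_one hr0.le hr1).mul_left _
      refine (tsum_of_norm_bounded hg (fun n => ?_)).trans ?_
      · rw [norm_mul, norm_pow, hzn, ← pow_add, add_comm n]
        have := hone (M (j + 1) + n)
        have h5 : 0 ≤ r ^ (M (j + 1) + n) := by positivity
        nlinarith
      · rw [← div_eq_mul_inv]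
        refine le_trans ?_ hR2
        apply div_le_div₀ (by positivity) (pow_le_pow_left₀ hr0.le hrR _) (by linarith)
          (by linarith)
    have h6 : |(l * ∑' n, c n * z ^ n).re - (l * (st (j + 1)).1.eval z).re| ≤ 1 := by
      rw [← Complex.sub_re, ← mul_sub]
      refine (Complex.abs_re_le_norm _).trans ?_
      rw [norm_mul, hl, one_mul]
      exact htail
    have h7 := abs_sub_abs_le_abs_sub ((l * (st (j + 1)).1.eval z).re)
      ((l * ∑' n, c n * z ^ n).re)
    rw [abs_sub_comm] at h7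
    have h8 : S j = S j := rfl
    linarith

end Pool.Agent.KS6_89.AB
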