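import Pool.Agent.KS6_89.AB.B2

set_option autoImplicit false

open Polynomial Filter Topology Finset Asymptotics

namespace Pool.Agent.KS6_89.AB

lemma summ_blocks (c : ℕ → ℂ) (M : ℕ → ℕ) (hM0 : M 0 = 0) (hmono : ∀ j, M j < M (j + 1))
    (N : ℕ → ℕ)
    (hcard : ∀ j, ((Finset.Ico (M j) (M (j + 1))).filter (fun n => c n ≠ 0)).card ≤ 3 * N j)
    (G : ℂ → ℝ) (hG0 : ∀ z, 0 ≤ G z) (hGz : G 0 = 0) (β : ℕ → ℝ) (hβ0 : ∀ j, 0 ≤ β j)
    (hβ : ∀ j n, M j ≤ n → n < M (j + 1) → G (c n) ≤ β j)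
    (hs : Summable (fun j => 3 * (N j : ℝ) * β j)) : Summable (fun n => G (c n)) := by
  have hsm : StrictMono M := strictMono_nat_of_lt_succ hmono
  have hge : ∀ j, j ≤ M j := hsm.id_le
  have hpart : ∀ J, ∑ n ∈ range (M J), G (c n) ≤ ∑ j ∈ range J, 3 * (N j : ℝ) * β j := by
    intro J
    induction J with
    | zero => simp [hM0]
    | succ J ih =>
      rw [Finset.sum_range_succ, ← Finset.sum_range_add_sum_Ico _ (hmono J).le]
      apply add_le_add ih
      have h1 : ∑ n ∈ Finset.Ico (M J) (M (J + 1)), G (c n)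
          = ∑ n ∈ (Finset.Ico (M J) (M (J + 1))).filter (fun n => c n ≠ 0), G (c n) := by
        symm
        apply Finset.sum_filter_of_ne
        intro n _ hn h0
        rw [h0, hGz] at hn
        exact hn rfl
      rw [h1]
      calc _ ≤ ∑ n ∈ (Finset.Ico (M J) (M (J + 1))).filter (fun n => c n ≠ 0), β J := by
            apply Finset.sum_le_sum
            intro n hn
            rw [Finset.mem_filter, Finset.mem_Ico] at hn
            exact hβ J n hn.1.1 hn.1.2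
        _ = (((Finset.Ico (M J) (M (J + 1))).filter (fun n => c n ≠ 0)).card : ℝ) * β J := by
            rw [Finset.sum_const, nsmul_eq_mul]
        _ ≤ 3 * (N J : ℝ) * β J := by
            apply mul_le_mul_of_nonneg_right _ (hβ0 J)
            exact_mod_cast hcard J
  apply summable_of_sum_range_le (c := ∑' j, 3 * (N j : ℝ) * β j) (fun n => hG0 _)
  intro n
  calc ∑ i ∈ range n, G (c i) ≤ ∑ i ∈ range (M n), G (c i) :=
        Finset.sum_le_sum_of_subset_of_nonneg (Finset.range_mono (hge n)) (fun i _ _ => hG0 _)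
    _ ≤ ∑ j ∈ range n, 3 * (N j : ℝ) * β j := hpart n
    _ ≤ _ := hs.sum_le_tsum _ (fun j _ => mul_nonneg (by positivity) (hβ0 j))

lemma mkStage (μ : ℕ) (p : ℕ → ℝ) (hp : ∀ k, |p k| ≤ 1) (K : ℝ) (hK : 0 < K)
    (h : 3 * (K / √(2 ^ μ)) ≤ 1) : ∃ S : Stage, S.N = 2 ^ μ ∧ S.γ = K / √(2 ^ μ) ∧
      ∀ z : ℂ, S.P.eval z = ∑ k ∈ range (2 ^ μ), (p k : ℂ) * z ^ k := by
  set P : ℂ[X] := ∑ k ∈ range (2 ^ μ), C (p k : ℂ) * X ^ k with hP
  have hc : ∀ n, P.coeff n = if n < 2 ^ μ then (p n : ℂ) else 0 := by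
    intro n
    rw [hP, finsetSum_coeff]
    simp only [coeff_C_mul_X_pow]
    rw [Finset.sum_ite_eq]
    simp only [Finset.mem_range]
  refine ⟨⟨P, 2 ^ μ, K / √(2 ^ μ), by positivity, h, ?_, ?_⟩, rfl, rfl, ?_⟩
  · intro n
    rw [hc]
    split_ifs
    · rw [Complex.norm_real]; exact hp n
    · simp
  · intro n hn
    rw [hc, if_neg (by omega)]
  · intro z
    simp only
    rw [hP, eval_finsetSum]
    simp

lemma summable_half (b : ℕ → ℝ) (hb : Summable b) : Summable (fun j => b (j / 2)) := by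
  obtain ⟨s, hs⟩ := hb
  have h1 : HasSum (fun k => (fun j : ℕ => b (j / 2)) (2 * k)) s := by
    simpa using hs
  have h2 : HasSum (fun k => (fun j : ℕ => b (j / 2)) (2 * k + 1)) s := by
    have : (fun k : ℕ => b ((2 * k + 1) / 2)) = b := by
      funext k; congr 1; omega
    simp only [this]
    exact hs
  exact (HasSum.even_add_odd h1 h2).summable

lemma exists_order (K t : ℝ) (ht : 0 < t) : ∃ μ : ℕ, 3 * (K / √(2 ^ μ)) ≤ t := by
  have h1 : Tendsto (fun μ : ℕ => √((2 : ℝ) ^ μ)) atTop atTop :=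
    Real.tendsto_sqrt_atTop.comp (tendsto_pow_atTop_atTop_of_one_lt (by norm_num))
  have h2 : Tendsto (fun μ : ℕ => 3 * (K / √((2 : ℝ) ^ μ))) atTop (𝓝 (3 * 0)) :=
    (h1.const_div_atTop K).const_mul 3
  rw [mul_zero] at h2
  exact (h2.eventually (ge_mem_nhds ht)).exists

/-- the main construction, complex form -/
theorem main (ω : ℝ → ℝ) (hω0 : ∀ t, 0 ≤ ω t) (hω : ω =o[𝓝 0] fun t : ℝ => t ^ 2) :
    ∃ c : ℕ → ℂ, c 0 = 0 ∧ (∀ n, ‖c n‖ ≤ 1) ∧
      (∀ ε : ℝ, 0 < ε → Summable fun n : ℕ => |(c n).re| ^ (2 + ε) + |(c n).im| ^ (2 + ε)) ∧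
      (Summable fun n : ℕ => ω |(c n).re| + ω |(c n).im|) ∧
      ∀ K ρ : ℝ, ρ < 1 → ∃ R : ℝ, R < 1 ∧ ∀ w0 l : ℂ, ‖w0‖ = 1 → ‖l‖ = 1 →
        ∃ r : ℝ, 0 < r ∧ ρ < r ∧ r ≤ R ∧ K < |(l * ∑' n, c n * (r * w0) ^ n).re| := by
  -- parameters
  have hpar : ∀ m : ℕ, ∃ (μ : ℕ) (p q : ℕ → ℝ), (∀ k, |p k| ≤ 1) ∧ (∀ k, |q k| ≤ 1) ∧
      (∀ z : ℂ, ‖z‖ = 1 →
      ‖∑ k ∈ range (2 ^ μ), (p k : ℂ) * z ^ k‖ ^ 2 +
        ‖∑ k ∈ range (2 ^ μ), (q k : ℂ) * z ^ k‖ ^ 2 = 2 ^ (μ + 1)) ∧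
      3 * (((m : ℝ) + 1) / √(2 ^ μ)) ≤ (1 / 2) ^ m ∧
      ∀ t : ℝ, |t| ≤ 3 * (((m : ℝ) + 1) / √(2 ^ μ)) →
        ω t ≤ (1 / 2) ^ m / ((m : ℝ) + 1) ^ 2 * t ^ 2 := by
    intro m
    have h1 := (isLittleO_iff.1 hω) (show 0 < (1 / 2 : ℝ) ^ m / ((m : ℝ) + 1) ^ 2 by positivity)
    obtain ⟨t0, ht0, h2⟩ := Metric.eventually_nhds_iff.1 h1
    obtain ⟨μ, hμ⟩ := exists_order ((m : ℝ) + 1) (min ((1 / 2) ^ m) (t0 / 2)) (by positivity)
    obtain ⟨p, q, hp, hq, hpq⟩ := Pool.Agent.Results.MP_85199e_an.EverywhereDivergent.rs μ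
    refine ⟨μ, p, q, hp, hq, hpq, hμ.trans (min_le_left _ _), fun t ht => ?_⟩
    have h3 := h2 (y := t) (by
      rw [dist_zero_right, Real.norm_eq_abs]
      have := ht.trans (hμ.trans (min_le_right _ _))
      linarith)
    rw [Real.norm_eq_abs, abs_of_nonneg (hω0 t), Real.norm_eq_abs, abs_of_nonneg (sq_nonneg t)]
      at h3
    exact h3
  choose μ p q hp hq hpq hsz hom using hpar
  have hsz1 : ∀ m : ℕ, 3 * (((m : ℝ) + 1) / √(2 ^ (μ m))) ≤ 1 := fun m =>
    (hsz m).trans (pow_le_one₀ (by norm_num) (by norm_num))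
  have hSP := fun m : ℕ => mkStage (μ m) (p m) (hp m) ((m : ℝ) + 1) (by positivity) (hsz1 m)
  have hSQ := fun m : ℕ => mkStage (μ m) (q m) (hq m) ((m : ℝ) + 1) (by positivity) (hsz1 m)
  choose SP hSP1 hSP2 hSP3 using hSP
  choose SQ hSQ1 hSQ2 hSQ3 using hSQ
  set S : ℕ → Stage := fun j => if Even j then SP (j / 2) else SQ (j / 2) with hS
  have hSN : ∀ j, (S j).N = 2 ^ (μ (j / 2)) := by
    intro j; rw [hS]; simp only; split_ifs
    · exact hSP1 _
    · exact hSQ1 _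
  have hSγ : ∀ j, (S j).γ = (((j / 2 : ℕ) : ℝ) + 1) / √(2 ^ (μ (j / 2))) := by
    intro j; rw [hS]; simp only; split_ifs
    · exact hSP2 _
    · exact hSQ2 _
  obtain ⟨c, M, hc0, hM0, hmono, hblock, hcard, hbig⟩ := exists_coeff S
  have hsm : StrictMono M := strictMono_nat_of_lt_succ hmono
  have hexj : ∀ n, ∃ j, M j ≤ n ∧ n < M (j + 1) := by
    intro n
    induction n with
    | zero => exact ⟨0, by omega, by have := hmono 0; omega⟩
    | succ n ih =>
      obtain ⟨j, h1, h2⟩ := ih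
      rcases Nat.lt_or_ge (n + 1) (M (j + 1)) with h | h
      · exact ⟨j, by omega, h⟩
      · exact ⟨j + 1, h, by have := hmono (j + 1); omega⟩
  refine ⟨c, hc0, ?_, ?_, ?_, ?_⟩
  · intro n
    obtain ⟨j, h1, h2⟩ := hexj n
    exact (hblock j n h1 h2).trans (S j).hγ1
  · intro ε hε
    have hz : ((0 : ℝ)) ^ (2 + ε) = 0 := Real.zero_rpow (by positivity)
    apply summ_blocks c M hM0 hmono (fun j => (S j).N) hcard
      (fun z => |z.re| ^ (2 + ε) + |z.im| ^ (2 + ε)) (fun z => by positivity)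
      (by simp [hz]) (fun j => 2 * (3 * (S j).γ) ^ (2 + ε))
      (fun j => by have := (S j).hγ; positivity)
    · intro j n h1 h2
      have h3 := hblock j n h1 h2
      have h4 : |(c n).re| ^ (2 + ε) ≤ (3 * (S j).γ) ^ (2 + ε) :=
        Real.rpow_le_rpow (abs_nonneg _) ((Complex.abs_re_le_norm _).trans h3) (by positivity)
      have h5 : |(c n).im| ^ (2 + ε) ≤ (3 * (S j).γ) ^ (2 + ε) :=
        Real.rpow_le_rpow (abs_nonneg _) ((Complex.abs_im_le_norm _).trans h3) (by positivity)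
      linarith
    · -- summability of the bounds
      have hb : Summable (fun m : ℕ => 54 * (((m : ℝ) + 1) ^ 2 * ((1 / 2 : ℝ) ^ ε) ^ m)) := by
        apply Summable.mul_left
        have hr : ‖((1 / 2 : ℝ) ^ ε)‖ < 1 := by
          rw [Real.norm_eq_abs, abs_of_nonneg (by positivity)]
          exact Real.rpow_lt_one (by norm_num) (by norm_num) hε
        have h1 := summable_pow_mul_geometric_of_norm_lt_one 2 hr
        have h2 := summable_pow_mul_geometric_of_norm_lt_one 1 hr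
        have h3 := summable_pow_mul_geometric_of_norm_lt_one 0 hr
        refine ((h1.add (h2.mul_left 2)).add h3).congr (fun m => ?_)
        simp only [pow_one, pow_zero]
        ring
      refine Summable.of_nonneg_of_le (fun j => ?_) (fun j => ?_) (summable_half _ hb)
      · have := (S j).hγ
        positivity
      · show 3 * ((S j).N : ℝ) * (2 * (3 * (S j).γ) ^ (2 + ε)) ≤ _
        rw [hSN, hSγ]
        set m := j / 2 with hm
        set g : ℝ := 3 * (((m : ℝ) + 1) / √(2 ^ (μ m))) with hg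
        have hg0 : 0 < g := by rw [hg]; positivity
        have hsq : √((2 : ℝ) ^ (μ m)) ^ 2 = 2 ^ (μ m) := Real.sq_sqrt (by positivity)
        have e1 : g ^ (2 + ε) = g ^ 2 * g ^ ε := by
          rw [Real.rpow_add hg0]; norm_num
        have e2 : g ^ ε ≤ ((1 / 2 : ℝ) ^ ε) ^ m := by
          calc g ^ ε ≤ ((1 / 2 : ℝ) ^ m) ^ ε := Real.rpow_le_rpow hg0.le (hsz m) hε.le
            _ = _ := by
              rw [← Real.rpow_natCast, ← Real.rpow_natCast, ← Real.rpow_mul (by norm_num),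
                ← Real.rpow_mul (by norm_num), mul_comm]
        have e3 : ((2 ^ (μ m) : ℕ) : ℝ) * g ^ 2 = 9 * ((m : ℝ) + 1) ^ 2 := by
          rw [hg, mul_pow, div_pow, hsq]
          push_cast
          field_simp
          ring
        calc 3 * ((2 ^ (μ m) : ℕ) : ℝ) * (2 * g ^ (2 + ε))
            = 6 * (((2 ^ (μ m) : ℕ) : ℝ) * g ^ 2) * g ^ ε := by rw [e1]; ring
          _ = 54 * (((m : ℝ) + 1) ^ 2 * g ^ ε) := by rw [e3]; ring
          _ ≤ 54 * (((m : ℝ) + 1) ^ 2 * ((1 / 2 : ℝ) ^ ε) ^ m) := by gcongr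
  · have hom0 : ω 0 = 0 := by
      have := hom 0 0 (by rw [abs_zero]; positivity)
      have h2 := hω0 0
      simp at this
      linarith
    apply summ_blocks c M hM0 hmono (fun j => (S j).N) hcard
      (fun z => ω |z.re| + ω |z.im|) (fun z => add_nonneg (hω0 _) (hω0 _))
      (by simp [hom0])
      (fun j => (1 / 2) ^ (j / 2) / (((j / 2 : ℕ) : ℝ) + 1) ^ 2 * (3 * (S j).γ) ^ 2)
      (fun j => by have := (S j).hγ; positivity)
    · intro j n h1 h2
      have h3 := hblock j n h1 h2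
      rw [hSγ] at h3 ⊢
      set m := j / 2 with hm
      set g : ℝ := 3 * (((m : ℝ) + 1) / √(2 ^ (μ m))) with hg
      have h4 := hom m |(c n).re| (by rw [abs_abs]; exact (Complex.abs_re_le_norm _).trans h3)
      have h5 := hom m |(c n).im| (by rw [abs_abs]; exact (Complex.abs_im_le_norm _).trans h3)
      have h6 : |(c n).re| ^ 2 + |(c n).im| ^ 2 ≤ g ^ 2 := by
        rw [sq_abs, sq_abs]
        have e : (c n).re ^ 2 + (c n).im ^ 2 = ‖c n‖ ^ 2 := by
          rw [Complex.sq_norm, Complex.normSq_apply]; ring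
        rw [e]
        exact pow_le_pow_left₀ (norm_nonneg _) h3 2
      have h7 : 0 ≤ (1 / 2 : ℝ) ^ m / ((m : ℝ) + 1) ^ 2 := by positivity
      calc ω |(c n).re| + ω |(c n).im|
          ≤ (1 / 2) ^ m / ((m : ℝ) + 1) ^ 2 * (|(c n).re| ^ 2 + |(c n).im| ^ 2) := by linarith
        _ ≤ _ := mul_le_mul_of_nonneg_left h6 h7
    · have hb : Summable (fun m : ℕ => 27 * ((1 / 2 : ℝ)) ^ m) :=
        (summable_geometric_of_lt_one (by norm_num) (by norm_num)).mul_left _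
      refine Summable.of_nonneg_of_le (fun j => ?_) (fun j => ?_) (summable_half _ hb)
      · have := (S j).hγ
        positivity
      · show 3 * ((S j).N : ℝ) * ((1 / 2) ^ (j / 2) / (((j / 2 : ℕ) : ℝ) + 1) ^ 2
          * (3 * (S j).γ) ^ 2) ≤ _
        rw [hSN, hSγ]
        set m := j / 2 with hm
        have hsq : √((2 : ℝ) ^ (μ m)) ^ 2 = 2 ^ (μ m) := Real.sq_sqrt (by positivity)
        apply le_of_eq
        have e3 : ((2 ^ (μ m) : ℕ) : ℝ) * (3 * (((m : ℝ) + 1) / √(2 ^ (μ m)))) ^ 2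
            = 9 * ((m : ℝ) + 1) ^ 2 := by
          rw [mul_pow _ _ 2, div_pow _ _ 2, hsq]
          push_cast
          field_simp
          ring
        calc _ = 3 * ((1 / 2) ^ m / ((m : ℝ) + 1) ^ 2) * (((2 ^ (μ m) : ℕ) : ℝ)
              * (3 * (((m : ℝ) + 1) / √(2 ^ (μ m)))) ^ 2) := by ring
          _ = _ := by
            rw [e3]
            field_simp
            ring
  · intro K ρ hρ
    obtain ⟨m1, hm1⟩ := exists_nat_gt (2400 * (K + 4))
    obtain ⟨m2, hm2⟩ := exists_nat_gt (1 / (1 - ρ))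
    set m := max m1 m2 with hm
    have hρ0 : 0 < 1 - ρ := by linarith
    have hmK : K < ((m : ℝ) + 1) / 2400 - 4 := by
      have : (m1 : ℝ) ≤ m := by exact_mod_cast le_max_left _ _
      linarith
    have hmρ : 1 / (1 - ρ) < (m : ℝ) + 1 := by
      have : (m2 : ℝ) ≤ m := by exact_mod_cast le_max_right _ _
      linarith
    have hmρ' : 1 / ((m : ℝ) + 1) < 1 - ρ := by
      rw [div_lt_iff₀ (by positivity)]
      rw [div_lt_iff₀ hρ0] at hmρ
      linarith
    obtain ⟨R1, hR10, hR11, hR1⟩ := hbig (2 * m)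
    obtain ⟨R2, hR20, hR21, hR2⟩ := hbig (2 * m + 1)
    have hSe : S (2 * m) = SP m := by
      rw [hS]; simp
    have hSo : S (2 * m + 1) = SQ m := by
      rw [hS]; simp only
      rw [if_neg (by simp), show (2 * m + 1) / 2 = m by omega]
    refine ⟨max R1 R2, max_lt hR11 hR21, fun w0 l hw0 hl => ?_⟩
    have hj1 : 1 / (((2 * m : ℕ) : ℝ) + 1) ≤ 1 / ((m : ℝ) + 1) := by
      apply one_div_le_one_div_of_le (by positivity)
      push_cast
      linarith [(Nat.cast_nonneg m : (0 : ℝ) ≤ m)]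
    have hj2 : 1 / (((2 * m + 1 : ℕ) : ℝ) + 1) ≤ 1 / ((m : ℝ) + 1) := by
      apply one_div_le_one_div_of_le (by positivity)
      push_cast
      linarith [(Nat.cast_nonneg m : (0 : ℝ) ≤ m)]
    have hid := hpq m w0 hw0
    rw [← hSP3, ← hSQ3] at hid
    have hsq : √((2 : ℝ) ^ (μ m)) ^ 2 = 2 ^ (μ m) := Real.sq_sqrt (by positivity)
    have hsp : 0 < √((2 : ℝ) ^ (μ m)) := by positivity
    have hlow : ∀ t : ℝ, 0 ≤ t → (2 : ℝ) ^ (μ m) ≤ t ^ 2 →
        (m : ℝ) + 1 ≤ ((m : ℝ) + 1) / √(2 ^ (μ m)) * t := by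
      intro t ht0 ht
      have h1 : √((2 : ℝ) ^ (μ m)) ≤ t := by
        apply Real.sqrt_le_iff.2 ⟨ht0, ht⟩
      rw [div_mul_eq_mul_div, le_div_iff₀ hsp]
      apply mul_le_mul_of_nonneg_left h1 (by positivity)
    rcases le_total ((2 : ℝ) ^ (μ m)) (‖(SP m).P.eval w0‖ ^ 2) with h | h
    · obtain ⟨r, hr0, hr1, hr2, hr3⟩ := hR1 w0 l hw0 hl
      refine ⟨r, hr0, by linarith, hr1.trans (le_max_left _ _), ?_⟩
      rw [hSe, hSP2] at hr3
      have := hlow _ (norm_nonneg _) h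
      linarith
    · have h' : (2 : ℝ) ^ (μ m) ≤ ‖(SQ m).P.eval w0‖ ^ 2 := by
        rw [pow_succ (2 : ℝ) (μ m)] at hid
        linarith
      obtain ⟨r, hr0, hr1, hr2, hr3⟩ := hR2 w0 l hw0 hl
      refine ⟨r, hr0, by linarith, hr1.trans (le_max_right _ _), ?_⟩
      rw [hSo, hSQ2] at hr3
      have := hlow _ (norm_nonneg _) h'
      linarith

end Pool.Agent.KS6_89.AB
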